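import Pool.Agent.W757.BL.Defs

/-!
# Polygons of greatest perimeter through a given point
-/

set_option autoImplicit false

namespace Pool.Agent.W320.BL

open Set Filter Topology Pool.Agent.W757.BL

theorem cs_cont (L : ℝ) {N : ℕ} (k : ℕ) : Continuous (fun u : Fin N → ℝ => cs L u k) := by
  cases k with
  | zero => exact continuous_const
  | succ i =>
    by_cases h : i < N
    · have : (fun u : Fin N → ℝ => cs L u (i + 1)) = fun u => u ⟨i, h⟩ := by
        funext u
        simp only [cs, dif_pos h]
      rw [this]
      exact continuous_apply _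
    · have : (fun u : Fin N → ℝ => cs L u (i + 1)) = fun _ => L := by
        funext u
        simp only [cs, dif_neg h]
      rw [this]
      exact continuous_const

theorem cs_top (L : ℝ) {N : ℕ} (u : Fin N → ℝ) : cs L u (N + 1) = L := by
  simp only [cs, lt_irrefl, dite_false]

theorem cs_zero (L : ℝ) {N : ℕ} (u : Fin N → ℝ) : cs L u 0 = 0 := rfl

theorem cs_nonneg {L : ℝ} {N : ℕ} {u : Fin N → ℝ} (hu : u ∈ KK L N) :
    ∀ i, i ≤ N + 1 → 0 ≤ cs L u i := by
  intro i
  induction i with
  | zero => intro _; exact le_of_eq (cs_zero L u).symm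
  | succ i ih => intro hi; exact (ih (by omega)).trans (hu i (by omega))

theorem cs_le {L : ℝ} {N : ℕ} {u : Fin N → ℝ} (hu : u ∈ KK L N) :
    ∀ j, j ≤ N + 1 → cs L u (N + 1 - j) ≤ L := by
  intro j
  induction j with
  | zero => intro _; exact le_of_eq (cs_top L u)
  | succ j ih =>
    intro hj
    have h1 := hu (N + 1 - (j + 1)) (by omega)
    have h2 : N + 1 - (j + 1) + 1 = N + 1 - j := by omega
    rw [h2] at h1
    exact h1.trans (ih (by omega))

theorem cs_le' {L : ℝ} {N : ℕ} {u : Fin N → ℝ} (hu : u ∈ KK L N) (i : ℕ) (hi : i ≤ N + 1) :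
    cs L u i ≤ L := by
  have h1 := cs_le hu (N + 1 - i) (by omega)
  have h2 : N + 1 - (N + 1 - i) = i := by omega
  rwa [h2] at h1

theorem KK_compact {L : ℝ} (N : ℕ) : IsCompact (KK L N) := by
  have hcl : IsClosed (KK L N) := by
    have : KK L N = ⋂ i : ℕ, ⋂ _ : i ≤ N, {u : Fin N → ℝ | cs L u i ≤ cs L u (i + 1)} := by
      ext u
      simp only [KK, Set.mem_setOf_eq, Set.mem_iInter]
    rw [this]
    exact isClosed_iInter fun i => isClosed_iInter fun _ =>
      isClosed_le (cs_cont L i) (cs_cont L (i + 1))
  refine IsCompact.of_isClosed_subset (isCompact_univ_pi fun _ : Fin N =>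
    (isCompact_Icc : IsCompact (Set.Icc (0 : ℝ) L))) hcl ?_
  intro u hu i _
  have h1 := cs_nonneg hu (i + 1) (by have := i.2; omega)
  have h2 := cs_le' hu (i + 1) (by have := i.2; omega)
  have h3 : cs L u (i + 1) = u i := by
    simp only [cs, i.2, dite_true]
  rw [h3] at h1 h2
  exact ⟨h1, h2⟩

theorem KK_nonempty {L : ℝ} (hL : 0 < L) (N : ℕ) : (KK L N).Nonempty := by
  refine ⟨fun _ => 0, ?_⟩
  have h0 : ∀ i, i ≤ N → cs L (fun _ : Fin N => (0 : ℝ)) i = 0 := by
    intro i hi
    cases i with
    | zero => rfl
    | succ i => simp only [cs, dif_pos (show i < N by omega)]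
  intro i hi
  rw [h0 i hi]
  rcases Nat.lt_or_ge i N with h | h
  · rw [h0 (i + 1) (by omega)]
  · have : i = N := by omega
    subst this
    rw [cs_top]
    exact hL.le

theorem PP_cont {x y x' y' : ℝ → ℝ} {L : ℝ} (hC : CF x y x' y' L) {N : ℕ} (a : ℝ) :
    Continuous (fun u : Fin N → ℝ => PP x y L a u) := by
  unfold PP
  apply continuous_finset_sum
  intro i _
  exact hC.cont.comp ((continuous_const.add (cs_cont L i)).prodMk
    (continuous_const.add (cs_cont L (i + 1))))

theorem cs_update {L : ℝ} {N : ℕ} (u : Fin N → ℝ) {k : ℕ} (hk : k < N) (v : ℝ) (i : ℕ) :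
    cs L (Function.update u ⟨k, hk⟩ v) i = if i = k + 1 then v else cs L u i := by
  cases i with
  | zero => rw [if_neg (by omega)]; rfl
  | succ i =>
    by_cases h : i = k
    · subst h
      rw [if_pos rfl]
      simp only [cs, dif_pos hk, Function.update_self]
    · rw [if_neg (by omega)]
      by_cases hi : i < N
      · simp only [cs, dif_pos hi]
        rw [Function.update_of_ne]
        intro h2
        exact h (congrArg Fin.val h2)
      · simp only [cs, dif_neg hi]

/-- one of the vertices has exactly one coinciding neighbour -/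
theorem exists_k {L : ℝ} (hL : 0 < L) {N : ℕ} {u : Fin N → ℝ} (hu : u ∈ KK L N) {i : ℕ}
    (hi : i ≤ N) (he : cs L u i = cs L u (i + 1)) :
    ∃ k, k < N ∧ cs L u k < cs L u (k + 2) ∧
      (cs L u (k + 1) = cs L u k ∨ cs L u (k + 1) = cs L u (k + 2)) := by
  by_contra hno
  push Not at hno
  have hstep : ∀ k, k < N → (cs L u k = cs L u (k + 1) ↔ cs L u (k + 1) = cs L u (k + 2)) := by
    intro k hk
    have m1 := hu k (by omega)
    have m2 : cs L u (k + 1) ≤ cs L u (k + 2) := hu (k + 1) (by omega)
    constructor
    · intro h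
      by_contra hne
      have hlt : cs L u k < cs L u (k + 2) := by
        rw [h]
        exact lt_of_le_of_ne m2 hne
      exact (hno k hk hlt).1 h.symm
    · intro h
      by_contra hne
      have hlt : cs L u k < cs L u (k + 2) := by
        rw [← h]
        exact lt_of_le_of_ne m1 hne
      exact (hno k hk hlt).2 h
  have hall : ∀ k, k ≤ N → (cs L u 0 = cs L u 1 ↔ cs L u k = cs L u (k + 1)) := by
    intro k
    induction k with
    | zero => intro _; exact Iff.rfl
    | succ k ih => intro hk; exact (ih (by omega)).trans (hstep k (by omega))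
  have h0 : cs L u 0 = cs L u 1 := (hall i hi).2 he
  have hz : ∀ k, k ≤ N + 1 → cs L u k = 0 := by
    intro k
    induction k with
    | zero => intro _; rfl
    | succ k ih =>
      intro hk
      rw [← (hall k (by omega)).1 h0]
      exact ih (by omega)
  have h1 := hz (N + 1) le_rfl
  rw [cs_top] at h1
  linarith

theorem hh_self (x y : ℝ → ℝ) (z : ℝ) : hh x y z z = 0 := by
  unfold hh
  simp

theorem t_EXM : S_EXM := by
  intro x y x' y' L N hCv hC hN a
  constructor
  · obtain ⟨u, hu, hmax⟩ := (KK_compact (L := L) N).exists_isMaxOn (KK_nonempty hCv.L0 N)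
      (PP_cont hC a).continuousOn
    exact ⟨u, hu, fun v hv => hmax hv⟩
  · intro u hu hmax i hi
    by_contra hcon
    have he : cs L u i = cs L u (i + 1) := le_antisymm (hu i hi) (not_lt.1 hcon)
    obtain ⟨k, hk, hlt, hor⟩ := exists_k hCv.L0 hu hi he
    set p := cs L u k with hp
    set q := cs L u (k + 2) with hq
    obtain ⟨v, hv1, hv2⟩ := exists_between hlt
    set u' := Function.update u ⟨k, hk⟩ v with hu'
    have hcs : ∀ i, cs L u' i = if i = k + 1 then v else cs L u i := fun i => cs_update u hk v i
    have hmem : u' ∈ KK L N := by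
      intro i hi
      rw [hcs, hcs]
      by_cases h1 : i = k + 1
      · subst h1
        rw [if_pos rfl, if_neg (by omega)]
        exact hv2.le
      · rw [if_neg h1]
        by_cases h2 : i = k
        · subst h2
          rw [if_pos rfl]
          exact hv1.le
        · rw [if_neg (by omega)]
          exact hu i hi
    have hle := hmax u' hmem
    have hdiff : PP x y L a u' - PP x y L a u =
        ∑ i ∈ ({k, k + 1} : Finset ℕ), (hh x y (a + cs L u' i) (a + cs L u' (i + 1)) -
          hh x y (a + cs L u i) (a + cs L u (i + 1))) := by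
      unfold PP
      rw [← Finset.sum_sub_distrib]
      symm
      apply Finset.sum_subset
      · intro i hi
        simp only [Finset.mem_insert, Finset.mem_singleton] at hi
        rw [Finset.mem_range]
        omega
      · intro i _ hi
        simp only [Finset.mem_insert, Finset.mem_singleton, not_or] at hi
        rw [hcs, hcs, if_neg hi.2, if_neg (by omega), sub_self]
    rw [Finset.sum_pair (by omega)] at hdiff
    have e1 : cs L u' k = p := by rw [hcs, if_neg (by omega)]
    have e2 : cs L u' (k + 1) = v := by rw [hcs, if_pos rfl]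
    have e3 : cs L u' (k + 1 + 1) = q := by rw [hcs, if_neg (by omega)]
    have e4 : cs L u (k + 1 + 1) = q := rfl
    rw [e1, e2, e3, e4, ← hp] at hdiff
    have hold : hh x y (a + p) (a + cs L u (k + 1)) + hh x y (a + cs L u (k + 1)) (a + q) =
        hh x y (a + p) (a + q) := by
      rcases hor with h | h
      · rw [h, hh_self, zero_add]
      · rw [h, hh_self, add_zero]
    have hp0 : 0 ≤ p := cs_nonneg hu k (by omega)
    have hqL : q ≤ L := cs_le' hu (k + 2) (by omega)
    have htri := hC.tri (a + p) (a + v) (a + q) (by linarith) (by linarith) (by linarith)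
    linarith

end Pool.Agent.W320.BL
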